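import Pool.Agent.H94.PX2.M34
import Pool.Agent.H94.PX2.M62

/-!
# G4 V Defs: the conjecture for quasi-projective varieties

`GGLCOpen`: (i), (ii), (iii), and (iv) for curves, for the quasi-projective variety `U = locVar P G` (the points of the closed subvariety of `ℙ^N` given by `P` at which one of the forms `G m` is not `0`).
`IsHyperbolic`: the conclusion of the main theorem.  The case `G = {1}` of `quasiProjective` are the projective varieties.
-/

set_option autoImplicit false

open Topology Filter MvPolynomial
open Pool.Agent.H17 (PN VanishesAt ZariskiClosedIn HolomorphicInto puncturedDisc)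
open Pool.Agent.H62.FC (Homog)
open Pool.Agent.H62.SA (locVar OnBd)
open Pool.Agent.H17LG.Variety (FunField IsLogGeneralType)

noncomputable section

namespace Pool.Agent.G4F

variable {N k : ℕ}

/-- Three of the properties of the conjecture for the quasi-projective variety `U = locVar P G`, with the exceptional set `Ξ`: log general type, pseudo Picard hyperbolic, pseudo Brody hyperbolic; and every closed
subvariety of `U` of dimension one which is not contained in `Ξ` is of log general type. -/
structure GGLCOpen (P : Ideal (MvPolynomial (Fin (N + 1)) ℂ)) [P.IsPrime] {s : ℕ} (G : Fin s → MvPolynomial (Fin (N + 1)) ℂ) (Ξ : Set (PN N)) : Prop where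
  closed : ZariskiClosedIn (locVar P G) Ξ
  proper : Ξ ≠ locVar P G
  logGeneralType : ∀ w, 1 ≤ w → (∃ z : Fin w → FunField P, IsTranscendenceBasis ℂ z) → IsLogGeneralType (OnBd P G (k := w))
  picard : ∀ f : ℂ → PN N, HolomorphicInto f puncturedDisc → (∀ z ∈ puncturedDisc, f z ∈ locVar P G) → (∃ z ∈ puncturedDisc, f z ∉ Ξ) →
    ∃ g : ℂ → PN N, HolomorphicInto g (Metric.ball 0 1) ∧ ∀ z ∈ puncturedDisc, g z = f z
  brody : ∀ f : ℂ → PN N, HolomorphicInto f Set.univ → (∀ z, f z ∈ locVar P G) → (∃ z w, f z ≠ f w) → ∀ z, f z ∈ Ξ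
  strongly : ∀ (Q : Ideal (MvPolynomial (Fin (N + 1)) ℂ)) [Q.IsPrime], Homog Q → P ≤ Q → ¬ locVar Q G ⊆ Ξ →
    (∃ z : Fin 1 → FunField Q, IsTranscendenceBasis ℂ z) → IsLogGeneralType (OnBd Q G (k := 1))

end Pool.Agent.G4F
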